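import Pool.Agent.Lib.MP_a3b162_co.DB.Pert

/-!
MP_a3b162_co, hand-in EdgeDensity: the general cluster lemma.
-/

set_option autoImplicit false

namespace Pool.Agent.Lib.MP_a3b162_co.DB

open Pool.Agent.Lib.MP_a3b162_co
open Filter Topology

variable {E : Type*} [AddCommGroup E] [Module ℝ E]

/-- the curve of a class -/
def crv (V T Q W : E) (τ : ℝ) : E := V + τ • T + τ ^ 2 • Q + τ ^ 3 • W - τ ^ 4 • V

/-- its derivative -/
def dcrv (V T Q W : E) (τ : ℝ) : E := T + (2 * τ) • Q + (3 * τ ^ 2) • W - (4 * τ ^ 3) • V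

theorem crv_apply (f : E →ₗ[ℝ] ℝ) (V T Q W : E) (τ : ℝ) :
    f (crv V T Q W τ) = f V + τ * f T + τ ^ 2 * f Q + τ ^ 3 * f W - τ ^ 4 * f V := by
  simp only [crv, map_sub, map_add, map_smul, smul_eq_mul]

theorem dcrv_apply (f : E →ₗ[ℝ] ℝ) (V T Q W : E) (τ : ℝ) :
    f (dcrv V T Q W τ) = f T + (2 * τ) * f Q + (3 * τ ^ 2) * f W - (4 * τ ^ 3) * f V := by
  simp only [dcrv, map_sub, map_add, map_smul, smul_eq_mul]

theorem crv_double (f : E →ₗ[ℝ] ℝ) (V T Q W : E) (τ e : ℝ) (h : f (dcrv V T Q W e) = 0) :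
    f (crv V T Q W τ) = f (crv V T Q W e) +
      (τ - e) ^ 2 * (f Q + (τ + 2 * e) * f W - (τ ^ 2 + 2 * τ * e + 3 * e ^ 2) * f V) := by
  rw [dcrv_apply] at h
  rw [crv_apply, crv_apply]
  linear_combination (τ - e) * h

theorem eta0 : Tendsto (fun η : ℝ => η) (𝓝[>] (0 : ℝ)) (𝓝 0) :=
  tendsto_nhdsWithin_of_tendsto_nhds tendsto_id

theorem crv_tendsto {F : ℝ → (E →ₗ[ℝ] ℝ)} {f0 : E →ₗ[ℝ] ℝ}
    (hF : ∀ x : E, Tendsto (fun η => F η x) (𝓝[>] (0 : ℝ)) (𝓝 (f0 x))) (V T Q W : E) (z : ℝ) :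
    Tendsto (fun η => F η (crv V T Q W (η * z))) (𝓝[>] (0 : ℝ)) (𝓝 (f0 V)) := by
  have h1 : Tendsto (fun η : ℝ => η * z) (𝓝[>] (0 : ℝ)) (𝓝 0) := by
    simpa using eta0.mul_const z
  have h2 := ((((hF V).add (h1.mul (hF T))).add ((h1.pow 2).mul (hF Q))).add
    ((h1.pow 3).mul (hF W))).sub ((h1.pow 4).mul (hF V))
  simp only [crv_apply]
  simpa using h2

theorem crv_tendsto' (f : E →ₗ[ℝ] ℝ) (V T Q W : E) (z : ℝ) :
    Tendsto (fun η => f (crv V T Q W (η * z))) (𝓝[>] (0 : ℝ)) (𝓝 (f V)) :=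
  crv_tendsto (F := fun _ => f) (fun _ => tendsto_const_nhds) V T Q W z

theorem dcrv_tendsto (f : E →ₗ[ℝ] ℝ) (V T Q W : E) (z : ℝ) :
    Tendsto (fun η => f (dcrv V T Q W (η * z))) (𝓝[>] (0 : ℝ)) (𝓝 (f T)) := by
  have h1 : Tendsto (fun η : ℝ => η * z) (𝓝[>] (0 : ℝ)) (𝓝 0) := by
    simpa using eta0.mul_const z
  have h2 : Tendsto (fun η : ℝ => f T + (2 * (η * z)) * f Q + (3 * (η * z) ^ 2) * f W -
      (4 * (η * z) ^ 3) * f V) (𝓝[>] (0 : ℝ))
      (𝓝 (f T + (2 * 0) * f Q + (3 * 0 ^ 2) * f W - (4 * 0 ^ 3) * f V)) :=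
    (((tendsto_const_nhds).add ((h1.const_mul 2).mul_const _)).add
      (((h1.pow 2).const_mul 3).mul_const _)).sub (((h1.pow 3).const_mul 4).mul_const _)
  simp only [dcrv_apply]
  simpa using h2

/-- two points of one class -/
theorem same {V T Q W : E} (hli : LinearIndependent ℝ ![V, T, Q, W]) {f0 : E →ₗ[ℝ] ℝ}
    (h1 : f0 V = 1) (h2 : f0 T = 0) (h3 : f0 Q = 0) (h4 : f0 W = 0) (x y : ℝ) :
    ∃ F : ℝ → (E →ₗ[ℝ] ℝ), (∀ v : E, Tendsto (fun η => F η v) (𝓝[>] (0 : ℝ)) (𝓝 (f0 v))) ∧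
      (∀ᶠ η in 𝓝[>] (0 : ℝ), F η (crv V T Q W (η * x)) = 1 ∧ F η (crv V T Q W (η * y)) = 1) ∧
      ∀ z, z ≠ x → z ≠ y → ∀ᶠ η in 𝓝[>] (0 : ℝ), |F η (crv V T Q W (η * z))| < 1 := by
  set K : ℝ → ℝ := fun η => 1 / (1 + (η * x) ^ 2 * (η * y) ^ 2) with hK
  have hx : Tendsto (fun η : ℝ => η * x) (𝓝[>] (0 : ℝ)) (𝓝 0) := by
    simpa using eta0.mul_const x
  have hy : Tendsto (fun η : ℝ => η * y) (𝓝[>] (0 : ℝ)) (𝓝 0) := by
    simpa using eta0.mul_const y
  have hK1 : Tendsto K (𝓝[>] (0 : ℝ)) (𝓝 1) := by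
    have e1 : Tendsto (fun η : ℝ => 1 + (η * x) ^ 2 * (η * y) ^ 2) (𝓝[>] (0 : ℝ)) (𝓝 1) := by
      simpa using ((hx.pow 2).mul (hy.pow 2)).const_add 1
    have e2 := e1.inv₀ one_ne_zero
    simp only [hK, one_div]
    simpa using e2
  have hKpos : ∀ η, 0 < K η := fun η => by simp only [hK]; positivity
  have hKeq : ∀ η, K η = 1 - K η * ((η * x) ^ 2 * (η * y) ^ 2) := by
    intro η
    simp only [hK]
    have : (1 + (η * x) ^ 2 * (η * y) ^ 2) ≠ 0 := by positivity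
    field_simp
    ring
  obtain ⟨F, g1, g2⟩ := pert hli f0 (l := 𝓝[>] (0 : ℝ)) (fun _ => ![V, T, Q, W])
    (fun η => ![K η, 2 * K η * ((η * x) * (η * y) * (η * x + η * y)),
      -(K η * ((η * x) ^ 2 + (η * y) ^ 2 + 4 * (η * x) * (η * y))), 2 * K η * (η * x + η * y)])
    (fun φ i => tendsto_const_nhds) (by
      intro i
      fin_cases i
      · simpa [h1] using hK1
      · have := (hK1.const_mul 2).mul ((hx.mul hy).mul (hx.add hy))
        simpa [h2] using this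
      · have := (hK1.mul (((hx.pow 2).add (hy.pow 2)).add ((hx.const_mul 4).mul hy))).neg
        simpa [h3] using this
      · have := (hK1.const_mul 2).mul (hx.add hy)
        simpa [h4] using this)
  have g3 : ∀ᶠ η in 𝓝[>] (0 : ℝ), ∀ z, F η (crv V T Q W z) =
      1 - K η * ((z - η * x) ^ 2 * (z - η * y) ^ 2) := by
    filter_upwards [g1] with η hη z
    have e0 := hη 0
    have e1 := hη 1
    have e2 := hη 2
    have e3 := hη 3
    simp only [Matrix.cons_val_zero, Matrix.cons_val_one, Matrix.cons_val] at e0 e1 e2 e3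
    rw [crv_apply, e0, e1, e2, e3]
    have := hKeq η
    linear_combination this
  refine ⟨F, g2, ?_, ?_⟩
  · filter_upwards [g3] with η hη
    rw [hη, hη]
    constructor <;> ring
  · intro z hzx hzy
    have e1 : Tendsto (fun η => K η * ((η * z - η * x) ^ 2 * (η * z - η * y) ^ 2))
        (𝓝[>] (0 : ℝ)) (𝓝 0) := by
      have hz : Tendsto (fun η : ℝ => η * z) (𝓝[>] (0 : ℝ)) (𝓝 0) := by
        simpa using eta0.mul_const z
      have := hK1.mul (((hz.sub hx).pow 2).mul ((hz.sub hy).pow 2))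
      simpa using this
    filter_upwards [g3, e1.eventually (gt_mem_nhds (show (0 : ℝ) < 1 by norm_num)),
      self_mem_nhdsWithin] with η h5 h6 h7
    rw [h5, abs_lt]
    have h8 : 0 < η := h7
    have h9 : 0 < K η * ((η * z - η * x) ^ 2 * (η * z - η * y) ^ 2) := by
      have a1 : η * z - η * x ≠ 0 := by
        rw [← mul_sub]
        exact mul_ne_zero h8.ne' (sub_ne_zero.2 hzx)
      have a2 : η * z - η * y ≠ 0 := by
        rw [← mul_sub]
        exact mul_ne_zero h8.ne' (sub_ne_zero.2 hzy)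
      have := hKpos η
      positivity
    constructor <;> linarith

/-- two points of different classes -/
theorem diff {V T Q W V' T' Q' W' : E} (hli : LinearIndependent ℝ ![V, T, V', T'])
    {f0 : E →ₗ[ℝ] ℝ} {s : ℝ} (hs : s = 1 ∨ s = -1)
    (h1 : f0 V = 1) (h2 : f0 T = 0) (h3 : f0 V' = s) (h4 : f0 T' = 0) (h5 : f0 Q < 0)
    (h6 : s * f0 Q' < 0) (x y : ℝ) :
    ∃ F : ℝ → (E →ₗ[ℝ] ℝ), (∀ v : E, Tendsto (fun η => F η v) (𝓝[>] (0 : ℝ)) (𝓝 (f0 v))) ∧
      (∀ᶠ η in 𝓝[>] (0 : ℝ), F η (crv V T Q W (η * x)) = 1 ∧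
        F η (crv V' T' Q' W' (η * y)) = s) ∧
      (∀ z, z ≠ x → ∀ᶠ η in 𝓝[>] (0 : ℝ), |F η (crv V T Q W (η * z))| < 1) ∧
      ∀ z, z ≠ y → ∀ᶠ η in 𝓝[>] (0 : ℝ), |F η (crv V' T' Q' W' (η * z))| < 1 := by
  obtain ⟨F, g1, g2⟩ := pert hli f0 (l := 𝓝[>] (0 : ℝ))
    (fun η => ![crv V T Q W (η * x), dcrv V T Q W (η * x), crv V' T' Q' W' (η * y),
      dcrv V' T' Q' W' (η * y)]) (fun _ => ![1, 0, s, 0])
    (by
      intro φ i
      fin_cases i
      · simpa using crv_tendsto' φ V T Q W x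
      · simpa using dcrv_tendsto φ V T Q W x
      · simpa using crv_tendsto' φ V' T' Q' W' y
      · simpa using dcrv_tendsto φ V' T' Q' W' y)
    (by
      intro i
      fin_cases i
      · simp [h1]
      · simp [h2]
      · simp [h3]
      · simp [h4])
  have g3 : ∀ᶠ η in 𝓝[>] (0 : ℝ), F η (crv V T Q W (η * x)) = 1 ∧
      F η (dcrv V T Q W (η * x)) = 0 ∧ F η (crv V' T' Q' W' (η * y)) = s ∧
      F η (dcrv V' T' Q' W' (η * y)) = 0 := by
    filter_upwards [g1] with η hη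
    have e0 := hη 0
    have e1 := hη 1
    have e2 := hη 2
    have e3 := hη 3
    simp only [Matrix.cons_val_zero, Matrix.cons_val_one, Matrix.cons_val] at e0 e1 e2 e3
    exact ⟨e0, e1, e2, e3⟩
  have hR : ∀ (A B C : E) (z e : ℝ), Tendsto (fun η => F η A + (η * z + 2 * (η * e)) * F η B -
      ((η * z) ^ 2 + 2 * (η * z) * (η * e) + 3 * (η * e) ^ 2) * F η C) (𝓝[>] (0 : ℝ))
      (𝓝 (f0 A)) := by
    intro A B C z e
    have hz : Tendsto (fun η : ℝ => η * z) (𝓝[>] (0 : ℝ)) (𝓝 0) := by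
      simpa using eta0.mul_const z
    have he : Tendsto (fun η : ℝ => η * e) (𝓝[>] (0 : ℝ)) (𝓝 0) := by
      simpa using eta0.mul_const e
    have h7 := ((g2 A).add ((hz.add (he.const_mul 2)).mul (g2 B))).sub
      (((((hz.pow 2).add ((hz.const_mul 2).mul he))).add ((he.pow 2).const_mul 3)).mul (g2 C))
    simpa using h7
  have hsq : ∀ z e : ℝ, z ≠ e → ∀ᶠ η in 𝓝[>] (0 : ℝ), 0 < (η * z - η * e) ^ 2 := by
    intro z e hze
    filter_upwards [self_mem_nhdsWithin] with η hη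
    have h8 : 0 < η := hη
    have a1 : η * z - η * e ≠ 0 := by
      rw [← mul_sub]
      exact mul_ne_zero h8.ne' (sub_ne_zero.2 hze)
    positivity
  have hsq0 : ∀ z e : ℝ, Tendsto (fun η : ℝ => (η * z - η * e) ^ 2) (𝓝[>] (0 : ℝ)) (𝓝 0) := by
    intro z e
    have hz : Tendsto (fun η : ℝ => η * z) (𝓝[>] (0 : ℝ)) (𝓝 0) := by
      simpa using eta0.mul_const z
    have he : Tendsto (fun η : ℝ => η * e) (𝓝[>] (0 : ℝ)) (𝓝 0) := by
      simpa using eta0.mul_const e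
    simpa using (hz.sub he).pow 2
  refine ⟨F, g2, ?_, ?_, ?_⟩
  · filter_upwards [g3] with η hη
    exact ⟨hη.1, hη.2.2.1⟩
  · intro z hz
    have e1 := hR Q W V z x
    have e2 := (hsq0 z x).mul e1
    rw [zero_mul] at e2
    filter_upwards [g3, hsq z x hz, e1.eventually (gt_mem_nhds h5),
      e2.eventually (lt_mem_nhds (show (-1 : ℝ) < 0 by norm_num))] with η a1 a2 a3 a4
    rw [crv_double (F η) V T Q W (η * z) (η * x) a1.2.1, a1.1, abs_lt]
    have a5 := mul_neg_of_pos_of_neg a2 a3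
    constructor <;> linarith
  · intro z hz
    have e1 := (hR Q' W' V' z y).const_mul s
    have e2 := (hsq0 z y).mul e1
    rw [zero_mul] at e2
    filter_upwards [g3, hsq z y hz, e1.eventually (gt_mem_nhds h6),
      e2.eventually (lt_mem_nhds (show (-1 : ℝ) < 0 by norm_num))] with η a1 a2 a3 a4
    have a5 := mul_neg_of_pos_of_neg a2 a3
    rw [crv_double (F η) V' T' Q' W' (η * z) (η * y) a1.2.2.2, a1.2.2.1, abs_lt]
    rcases hs with hs | hs
    · rw [hs] at a4 a5 ⊢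
      constructor <;> linarith
    · rw [hs] at a4 a5 ⊢
      constructor <;> linarith

/-- **the cluster lemma** -/
theorem cluster {C : Type*} {V T Q W : C → E} (hD : Dat V T Q W) {n : ℕ} (cls : Fin n → C) :
    ∃ p : Fin n → E, (∀ i j, i ≠ j → Pres p i j true) ∧
      ∀ i j, cls i ≠ cls j → Pres p i j false := by
  classical
  set x : Fin n → ℝ := fun i => ((i : ℕ) : ℝ) with hx
  have hxi : ∀ i j, i ≠ j → x i ≠ x j := by
    intro i j hij h
    apply hij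
    apply Fin.ext
    simp only [hx] at h
    exact_mod_cast h
  set p : ℝ → Fin n → E := fun η i =>
    crv (V (cls i)) (T (cls i)) (Q (cls i)) (W (cls i)) (η * x i) with hp
  have habs : ∀ {F : ℝ → (E →ₗ[ℝ] ℝ)} {f0 : E →ₗ[ℝ] ℝ},
      (∀ v : E, Tendsto (fun η => F η v) (𝓝[>] (0 : ℝ)) (𝓝 (f0 v))) → ∀ c, |f0 (V c)| < 1 →
      ∀ z, ∀ᶠ η in 𝓝[>] (0 : ℝ), |F η (crv (V c) (T c) (Q c) (W c) (η * z))| < 1 := by
    intro F f0 hF c hc z
    exact (crv_tendsto hF (V c) (T c) (Q c) (W c) z).abs.eventually (gt_mem_nhds hc)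
  have hall : ∀ (i j : Fin n) (φ : ℝ → (E →ₗ[ℝ] ℝ)), (∀ k, k ≠ i → k ≠ j →
      ∀ᶠ η in 𝓝[>] (0 : ℝ), |φ η (p η k)| < 1) →
      ∀ᶠ η in 𝓝[>] (0 : ℝ), ∀ k, k ≠ i → k ≠ j → |φ η (p η k)| < 1 := by
    intro i j φ h
    rw [eventually_all]
    intro k
    rw [eventually_imp_distrib_left]
    intro hki
    rw [eventually_imp_distrib_left]
    intro hkj
    exact h k hki hkj
  have hdiff : ∀ i j, cls i ≠ cls j → ∀ b, ∀ᶠ η in 𝓝[>] (0 : ℝ), Pres (p η) i j b := by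
    intro i j hij b
    have hs : sg b = 1 ∨ sg b = -1 := by cases b <;> simp
    obtain ⟨f0, h1, h2, h3, h4, h5, h6, h7⟩ := hD.ex2 _ _ hij (sg b) hs
    obtain ⟨F, g1, g2, g3, g4⟩ := diff (W := W (cls i)) (W' := W (cls j)) (hD.li2 _ _ hij) hs
      h1 h2 h3 h4 h5 h6 (x i) (x j)
    have q6 := hall i j F (by
      intro k hki hkj
      by_cases c1 : cls k = cls i
      · simp only [hp, c1]
        exact g3 _ (hxi k i hki)
      · by_cases c2 : cls k = cls j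
        · simp only [hp, c2]
          exact g4 _ (hxi k j hkj)
        · simp only [hp]
          exact habs g1 _ (h7 _ c1 c2) _)
    filter_upwards [g2, q6] with η h8 h9
    exact ⟨F η, h8.1, h8.2, h9⟩
  have hsame : ∀ i j, i ≠ j → cls i = cls j → ∀ᶠ η in 𝓝[>] (0 : ℝ), Pres (p η) i j true := by
    intro i j hij hc
    obtain ⟨f0, h1, h2, h3, h4, h5⟩ := hD.ex1 (cls i)
    obtain ⟨F, g1, g2, g3⟩ := same (hD.li1 (cls i)) h1 h2 h3 h4 (x i) (x j)
    have q6 := hall i j F (by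
      intro k hki hkj
      by_cases c1 : cls k = cls i
      · simp only [hp, c1]
        exact g3 _ (hxi k i hki) (hxi k j hkj)
      · simp only [hp]
        exact habs g1 _ (h5 _ c1) _)
    filter_upwards [g2, q6] with η h8 h9
    refine ⟨F η, h8.1, ?_, h9⟩
    simp only [hp, ← hc, sg_true]
    exact h8.2
  have hfin : ∀ᶠ η in 𝓝[>] (0 : ℝ), (∀ i j, i ≠ j → Pres (p η) i j true) ∧
      ∀ i j, cls i ≠ cls j → Pres (p η) i j false := by
    rw [eventually_and]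
    constructor
    · rw [eventually_all]
      intro i
      rw [eventually_all]
      intro j
      rw [eventually_imp_distrib_left]
      intro hij
      by_cases hc : cls i = cls j
      · exact hsame i j hij hc
      · exact hdiff i j hc true
    · rw [eventually_all]
      intro i
      rw [eventually_all]
      intro j
      rw [eventually_imp_distrib_left]
      intro hij
      exact hdiff i j hij false
  obtain ⟨η, hη⟩ := hfin.exists
  exact ⟨p η, hη⟩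

theorem pres_equiv {V W : Type*} [AddCommGroup V] [Module ℝ V] [AddCommGroup W] [Module ℝ W]
    (e : V ≃ₗ[ℝ] W) {ι : Type*} {p : ι → V} {i j : ι} {b : Bool} (h : Pres p i j b) :
    Pres (fun k => e (p k)) i j b := by
  obtain ⟨φ, h1, h2, h3⟩ := h
  refine ⟨φ.comp e.symm.toLinearMap, ?_, ?_, ?_⟩
  · simpa using h1
  · simpa using h2
  · intro k hk1 hk2
    simpa using h3 k hk1 hk2

end Pool.Agent.Lib.MP_a3b162_co.DB
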