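import Pool.Agent.Lib.MP_a3b162_co.Core

/-!
MP_a3b162_co, hand-in EdgeDensity (asymptotic edge density of centrally symmetric polytopes): the data of the
cluster lemma.

`V c` is the place of the class `c`, `T c`, `Q c`, `W c` are the first three derivatives of the curve of the class `c`:
`γ_c(τ) = V + τ T + τ² Q + τ³ W - τ⁴ V`.
-/

set_option autoImplicit false

namespace Pool.Agent.Lib.MP_a3b162_co.DB

/-- the hypotheses of the cluster lemma -/
structure Dat {E C : Type*} [AddCommGroup E] [Module ℝ E] (V T Q W : C → E) : Prop where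
  /-- the four vectors of a class are linearly independent -/
  li1 : ∀ c, LinearIndependent ℝ ![V c, T c, Q c, W c]
  /-- a functional for the pairs inside a class -/
  ex1 : ∀ c, ∃ f : E →ₗ[ℝ] ℝ, f (V c) = 1 ∧ f (T c) = 0 ∧ f (Q c) = 0 ∧ f (W c) = 0 ∧
    ∀ c', c' ≠ c → |f (V c')| < 1
  /-- places and tangents of two classes are linearly independent -/
  li2 : ∀ c c', c ≠ c' → LinearIndependent ℝ ![V c, T c, V c', T c']
  /-- a functional for the pairs of two classes -/
  ex2 : ∀ c c', c ≠ c' → ∀ s : ℝ, (s = 1 ∨ s = -1) → ∃ f : E →ₗ[ℝ] ℝ, f (V c) = 1 ∧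
    f (T c) = 0 ∧ f (V c') = s ∧ f (T c') = 0 ∧ f (Q c) < 0 ∧ s * f (Q c') < 0 ∧
    ∀ c'', c'' ≠ c → c'' ≠ c' → |f (V c'')| < 1

/-
L2 (helper96), module DB/Cube.lean, statement verbatim:

theorem cube_dat (N : ℕ) (hN : 2 ≤ N) : ∃ (C : Type) (_ : Fintype C)
    (V T Q W : C → (Fin N → ℝ) × ℝ × ℝ), Fintype.card C = 2 ^ (N - 1) ∧ Dat V T Q W := by
  sorry
-/

end Pool.Agent.Lib.MP_a3b162_co.DB
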