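import Pool.Agent.Lib.MP_a3b162_co.DB.Defs

/-!
MP_a3b162_co, hand-in EdgeDensity: perturbation of a functional with prescribed values on linearly independent vectors.
-/

set_option autoImplicit false

namespace Pool.Agent.Lib.MP_a3b162_co.DB

open Filter Topology

variable {E : Type*} [AddCommGroup E] [Module ℝ E]

theorem dual_family {k : ℕ} {a : Fin k → E} (ha : LinearIndependent ℝ a) :
    ∃ φ : Fin k → (E →ₗ[ℝ] ℝ), ∀ i j, φ i (a j) = if j = i then 1 else 0 := by
  classical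
  have h1 : ∀ i : Fin k, ∃ g : E →ₗ[ℝ] ℝ, ∀ j, g (a j) = if j = i then 1 else 0 := by
    intro i
    obtain ⟨g, hg⟩ := LinearMap.exists_extend ((Finsupp.lapply i : (Fin k →₀ ℝ) →ₗ[ℝ] ℝ) ∘ₗ
      (ha.repr : Submodule.span ℝ (Set.range a) →ₗ[ℝ] (Fin k →₀ ℝ)))
    refine ⟨g, fun j => ?_⟩
    have h2 : g (a j) = (g ∘ₗ (Submodule.span ℝ (Set.range a)).subtype)
        ⟨a j, Submodule.subset_span ⟨j, rfl⟩⟩ := rfl
    rw [h2, hg]
    have h3 : ha.repr ⟨a j, Submodule.subset_span ⟨j, rfl⟩⟩ = Finsupp.single j 1 :=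
      ha.repr_eq_single j _ rfl
    have h4 : (Finsupp.lapply i : (Fin k →₀ ℝ) →ₗ[ℝ] ℝ)
        (ha.repr ⟨a j, Submodule.subset_span ⟨j, rfl⟩⟩) = if j = i then 1 else 0 := by
      rw [h3, Finsupp.lapply_apply, Finsupp.single_apply]
    exact h4
  choose φ hφ using h1
  exact ⟨φ, hφ⟩

theorem pert {k : ℕ} {a : Fin k → E} (ha : LinearIndependent ℝ a) (f0 : E →ₗ[ℝ] ℝ)
    {l : Filter ℝ} (A : ℝ → Fin k → E) (b : ℝ → Fin k → ℝ)
    (hA : ∀ (φ : E →ₗ[ℝ] ℝ) i, Tendsto (fun η => φ (A η i)) l (𝓝 (φ (a i))))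
    (hb : ∀ i, Tendsto (fun η => b η i) l (𝓝 (f0 (a i)))) :
    ∃ F : ℝ → (E →ₗ[ℝ] ℝ), (∀ᶠ η in l, ∀ i, F η (A η i) = b η i) ∧
      ∀ x : E, Tendsto (fun η => F η x) l (𝓝 (f0 x)) := by
  classical
  obtain ⟨φ, hφ⟩ := dual_family ha
  set M : ℝ → Matrix (Fin k) (Fin k) ℝ := fun η => Matrix.of fun i j => φ i (A η j) with hM
  have hM1 : Tendsto M l (𝓝 1) := by
    refine tendsto_pi_nhds.2 fun i => ?_
    refine tendsto_pi_nhds.2 fun j => ?_
    have h1 := hA (φ i) j
    rw [hφ i j] at h1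
    have h2 : (1 : Matrix (Fin k) (Fin k) ℝ) i j = if j = i then 1 else 0 := by
      rw [Matrix.one_apply]
      by_cases h : i = j
      · simp [h]
      · simp [h, Ne.symm h]
    rw [h2]
    exact h1
  have hdet : Tendsto (fun η => (M η).det) l (𝓝 1) := by
    have h1 : Continuous fun X : Matrix (Fin k) (Fin k) ℝ => X.det := continuous_id.matrix_det
    have h2 := (h1.tendsto (1 : Matrix (Fin k) (Fin k) ℝ)).comp hM1
    rw [Matrix.det_one] at h2
    exact h2
  have hadj : Tendsto (fun η => (M η).adjugate) l (𝓝 1) := by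
    have h1 : Continuous fun X : Matrix (Fin k) (Fin k) ℝ => X.adjugate :=
      continuous_id.matrix_adjugate
    have h2 := (h1.tendsto (1 : Matrix (Fin k) (Fin k) ℝ)).comp hM1
    rw [Matrix.adjugate_one] at h2
    exact h2
  set r : ℝ → Fin k → ℝ := fun η j => b η j - f0 (A η j) with hr
  have hr0 : Tendsto r l (𝓝 0) := by
    rw [tendsto_pi_nhds]
    intro j
    have h1 := (hb j).sub (hA f0 j)
    rw [sub_self] at h1
    exact h1
  set c : ℝ → Fin k → ℝ := fun η => Matrix.vecMul (r η) ((M η).det⁻¹ • (M η).adjugate) with hc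
  have hc0 : Tendsto c l (𝓝 0) := by
    have h1 : Tendsto (fun η => (M η).det⁻¹ • (M η).adjugate) l
        (𝓝 ((1 : ℝ)⁻¹ • (1 : Matrix (Fin k) (Fin k) ℝ))) := (hdet.inv₀ one_ne_zero).smul hadj
    have h2 : Continuous fun q : (Fin k → ℝ) × Matrix (Fin k) (Fin k) ℝ =>
        Matrix.vecMul q.1 q.2 := continuous_fst.matrix_vecMul continuous_snd
    have h3 := (h2.tendsto ((0 : Fin k → ℝ), (1 : ℝ)⁻¹ • (1 : Matrix (Fin k) (Fin k) ℝ))).comp
      (hr0.prodMk_nhds h1)
    simp only [Matrix.zero_vecMul] at h3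
    exact h3
  refine ⟨fun η => f0 + ∑ i, c η i • φ i, ?_, ?_⟩
  · filter_upwards [hdet.eventually_ne one_ne_zero] with η hη j
    have h1 : Matrix.vecMul (c η) (M η) = r η := by
      simp only [hc]
      rw [Matrix.vecMul_vecMul, Matrix.smul_mul, Matrix.adjugate_mul, smul_smul,
        inv_mul_cancel₀ hη, one_smul, Matrix.vecMul_one]
    have h2 := congrFun h1 j
    have h3 : Matrix.vecMul (c η) (M η) j = ∑ i, c η i * φ i (A η j) := rfl
    rw [h3] at h2
    simp only [LinearMap.add_apply, LinearMap.sum_apply, LinearMap.smul_apply, smul_eq_mul]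
    rw [h2]
    simp only [hr]
    ring
  · intro x
    have h1 : ∀ i, Tendsto (fun η => c η i * φ i x) l (𝓝 0) := by
      intro i
      have h2 := ((tendsto_pi_nhds.1 hc0) i).mul_const (φ i x)
      simpa using h2
    have h2 : Tendsto (fun η => f0 x + ∑ i, c η i * φ i x) l (𝓝 (f0 x + ∑ _i : Fin k, (0 : ℝ))) :=
      tendsto_const_nhds.add (tendsto_finsetSum _ fun i _ => h1 i)
    simp only [Finset.sum_const_zero, add_zero] at h2
    simpa only [LinearMap.add_apply, LinearMap.sum_apply, LinearMap.smul_apply, smul_eq_mul]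
      using h2

end Pool.Agent.Lib.MP_a3b162_co.DB
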